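import Pool.Agent.Lib_MP_418a80_an.CircleC

/-!
# A strictly outer action of the discrete circle group without ergodic cocycle perturbation

The circle group, regarded as a discrete (hence noncompact) abelian (hence amenable) group, has a
strictly outer action on a II₁ factor acting on a separable Hilbert space none of whose cocycle
perturbations is ergodic.
-/

set_option linter.unusedSectionVars false

namespace Pool.Agent.Results.MP_418a80_an.DiscreteCircle

open Pool.Agent.ErgCoc
open Classical Filter
open scoped Topology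

/-- The group of affine maps `x ↦ 2ⁿ x + a` of `ℚ`. -/
@[ext] structure Aff where
  a : ℚ
  n : ℤ

namespace Aff

instance : Mul Aff := ⟨fun x y => ⟨x.a + (2 : ℚ) ^ x.n * y.a, x.n + y.n⟩⟩
instance : One Aff := ⟨⟨0, 0⟩⟩
instance : Inv Aff := ⟨fun x => ⟨-((2 : ℚ) ^ (-x.n) * x.a), -x.n⟩⟩

@[simp] theorem mul_a (x y : Aff) : (x * y).a = x.a + (2 : ℚ) ^ x.n * y.a := rfl
@[simp] theorem mul_n (x y : Aff) : (x * y).n = x.n + y.n := rfl
@[simp] theorem one_a : (1 : Aff).a = 0 := rfl
@[simp] theorem one_n : (1 : Aff).n = 0 := rfl
@[simp] theorem inv_a (x : Aff) : (x⁻¹).a = -((2 : ℚ) ^ (-x.n) * x.a) := rfl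
@[simp] theorem inv_n (x : Aff) : (x⁻¹).n = -x.n := rfl

instance : Group Aff := Group.ofLeftAxioms
  (by
    intro x y z
    ext
    · simp only [mul_a, mul_n, zpow_add₀ (two_ne_zero : (2 : ℚ) ≠ 0)]; ring
    · simp only [mul_n]; ring)
  (by
    intro x
    ext <;> simp)
  (by
    intro x
    ext
    · simp
    · simp)

instance : Countable Aff := by
  have : Function.Injective (fun x : Aff => (x.a, x.n)) := by
    intro x y h
    simp only [Prod.mk.injEq] at h
    exact Aff.ext h.1 h.2
  exact this.countable

instance : Nontrivial Aff := ⟨⟨1, ⟨1, 0⟩, by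
  intro h
  have := congrArg Aff.a h
  simp at this⟩⟩

theorem icc : ICC Aff := by
  intro s hs
  by_cases hn : s.n = 0
  · -- conjugate by dilations
    have ha : s.a ≠ 0 := by
      intro ha
      exact hs (Aff.ext ha hn)
    have hinj : Function.Injective (fun m : ℤ => (⟨0, m⟩ : Aff)⁻¹ * s * ⟨0, m⟩) := by
      intro m m' h
      have h1 := congrArg Aff.a h
      simp only [mul_a, inv_a, inv_n, mul_zero, neg_zero, zero_add, add_zero] at h1
      have h2 := mul_right_cancel₀ ha h1
      have h3 := zpow_right_injective₀ (two_pos : (0 : ℚ) < 2) (by norm_num) h2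
      simpa using h3
    exact (Set.infinite_range_of_injective hinj).mono (by
      rintro _ ⟨m, rfl⟩; exact ⟨_, rfl⟩)
  · have h2n : (2 : ℚ) ^ s.n ≠ 1 := by
      intro h
      have : (2 : ℚ) ^ s.n = (2 : ℚ) ^ (0 : ℤ) := by simpa using h
      exact hn (zpow_right_injective₀ (two_pos : (0 : ℚ) < 2) (by norm_num) this)
    have hinj : Function.Injective (fun q : ℚ => (⟨q, 0⟩ : Aff)⁻¹ * s * ⟨q, 0⟩) := by
      intro q q' h
      have h1 := congrArg Aff.a h
      simp only [mul_a, mul_n, inv_a, inv_n, neg_zero, zpow_zero, one_mul, zero_add] at h1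
      have h3 : ((2 : ℚ) ^ s.n - 1) * (q - q') = 0 := by linear_combination h1
      rcases mul_eq_zero.1 h3 with h4 | h4
      · exact absurd (sub_eq_zero.1 h4) h2n
      · exact sub_eq_zero.1 h4
    exact (Set.infinite_range_of_injective hinj).mono (by
      rintro _ ⟨m, rfl⟩; exact ⟨_, rfl⟩)

end Aff

/-- implementing data for the dual action of the circle -/
noncomputable def impl : Impl Circle Aff :=
  mkImpl 1 (fun g s => g ^ s.n) (by intro g h s; simp [mul_zpow]) (by
    intro g s t; simp [zpow_add])

theorem impl_free : impl.Free := by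
  refine mkImpl_free _ _ _ _ ?_
  intro g hg t
  by_cases ht : t = 1
  · right
    refine ⟨⟨0, 1⟩, ?_, ?_⟩
    · subst ht; simp
    · simpa using hg
  · left
    exact Aff.icc t ht

theorem u_dl (t : Circle) (s : Aff) : impl.u t (dl s) = ((t ^ s.n : Circle) : ℂ) • dl s :=
  mkImpl_u_dl _ _ _ _ t s

theorem not_ergodic (v : Circle → (L2 Aff →L[ℂ] L2 Aff)) (hv : IsCocycle (LG Aff) impl.act v) :
    ¬ PerturbationIsErgodic (LG Aff) impl.act v := by
  intro herg
  let D : CocData Aff :=
    { I := impl
      hfix := by
        intro t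
        rw [u_dl]; simp
      hcont := by
        intro s
        have h1 : Continuous fun t : Circle => ((t ^ s.n : Circle) : ℂ) :=
          continuous_subtype_val.comp (continuous_zpow s.n)
        have h2 : (fun t => impl.u t (dl s)) =
            fun t : Circle => ((t ^ s.n : Circle) : ℂ) • (dl s : L2 Aff) := by
          funext t; exact u_dl t s
        rw [h2]
        exact h1.smul (continuous_const (y := (dl s : L2 Aff)))
      V := v
      hV := hv.mem
      hV1 := hv.star_mul_self
      hV2 := hv.mul_star_self
      hcoc := hv.cocycle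
      herg := herg }
  exact D.contradiction Aff.icc

/-- The circle group `Circle`, regarded as a discrete group, has a strictly outer action `α` on a
II₁ factor `M` acting on a separable Hilbert space `H` such that no cocycle perturbation of `α` is
ergodic. (`J` exhibits `K` as `ℓ²(Circle, H)`, on which the crossed product acts.) -/
theorem result :
    ∃ (H : Type) (_ : NormedAddCommGroup H) (_ : InnerProductSpace ℂ H) (_ : CompleteSpace H)
      (K : Type) (_ : NormedAddCommGroup K) (_ : InnerProductSpace ℂ K) (_ : CompleteSpace K)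
      (M : VonNeumannAlgebra H) (α : Circle → (H →L[ℂ] H) → (H →L[ℂ] H))
      (J : Circle → H →L[ℂ] K),
      TopologicalSpace.SeparableSpace H ∧ IsII1Factor M ∧ IsAction M α ∧
        IsEllTwo J ∧ IsStrictlyOuter M α J ∧
        ∀ v : Circle → (H →L[ℂ] H), IsCocycle M α v → ¬ PerturbationIsErgodic M α v :=
  ⟨L2 Aff, inferInstance, inferInstance, inferInstance,
    lp (fun _ : Circle => L2 Aff) 2, inferInstance, inferInstance, inferInstance,
    LG Aff, impl.act, Impl.J Circle Aff,
    separableSpace_L2 Aff, LG_isII1Factor Aff.icc, impl.isAction, Impl.isEllTwo,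
    impl.strictlyOuter Aff.icc impl_free, not_ergodic⟩

end Pool.Agent.Results.MP_418a80_an.DiscreteCircle
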