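import Pool.Agent.Lib_MP_418a80_hyp.Final
import Pool.Agent.Lib_MP_418a80_hyp.HStmt

/-!
# Ergodic cocycle perturbations on hyperfinite factors, for all amenable groups

For a second countable noncompact amenable locally compact group `G`, every strictly outer action
of `G` on the hyperfinite II₁ factor admits an ergodic cocycle perturbation (`R = M` below). The
same holds for every action of `G` on a II₁ factor `M` with separable predual which contains a
hyperfinite subalgebra `R` with `R' ∩ (M ⋊_α G) = ℂ 1`.
-/

set_option autoImplicit false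

open MeasureTheory TopologicalSpace

namespace Pool.Agent.Results.MP_418a80_an.HyperfiniteFactors

open Pool.Agent.AbCoc

universe u v

theorem result {G : Type v} [Group G] [TopologicalSpace G] [IsTopologicalGroup G]
    [SecondCountableTopology G] [LocallyCompactSpace G] [T2Space G] [NoncompactSpace G]
    [MeasurableSpace G] [BorelSpace G] (μ : Measure G) [μ.IsHaarMeasure]
    (hG : ErgCP.IsAmenable μ)
    {H : Type u} [NormedAddCommGroup H] [InnerProductSpace ℂ H] [CompleteSpace H]
    [SeparableSpace H] (M : VonNeumannAlgebra H) (hM : IsII1Factor M)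
    (α : G → (H →L[ℂ] H) → (H →L[ℂ] H)) (hα : IsAction M α)
    (R : VonNeumannAlgebra H) (hRM : ∀ x ∈ R, x ∈ M) (hR : ErgCP.IsHyperfinite R)
    (hout : ErgCP.IsStrictlyOuterOver μ M R α) :
    ∃ v : G → (H →L[ℂ] H), IsCocycle M α v ∧ PerturbationIsErgodic M α v :=
  hyperfinite_theorem μ hM hα hG R hRM hR ((ErgCP.isStrictlyOuterOver_iff μ M R α).1 hout)

end Pool.Agent.Results.MP_418a80_an.HyperfiniteFactors
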