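import Pool.Agent.Lib_MP_418a80_nm.NFinVN
import Pool.Agent.Lib_MP_418a80_ab.Stmt

/-!
# Ergodic cocycle perturbations of actions on II₁ factors that are not McDuff

For a second countable noncompact locally compact amenable group `G` and a II₁ factor `M` with
separable predual whose central sequences commute (that is, `M` is not McDuff), every strictly
outer action of `G` on `M` admits an ergodic cocycle perturbation. For an arbitrary II₁ factor with
separable predual it is enough that the elements `g` for which `α g` has a nontrivial twisted
central sequence commute with each other, and for a factor with spectral gap it is enough that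
`α g` is outer for `g ≠ 1`.
-/

set_option autoImplicit false

open MeasureTheory TopologicalSpace

namespace Pool.Agent.Results.MP_418a80_an.NonMcDuffFactors

open Pool.Agent.AbCoc

universe u v

theorem result {G : Type v} [Group G] [TopologicalSpace G] [IsTopologicalGroup G]
    [SecondCountableTopology G] [LocallyCompactSpace G] [T2Space G] [NoncompactSpace G]
    [MeasurableSpace G] [BorelSpace G] (μ : Measure G) [μ.IsHaarMeasure]
    (hG : ErgLC.FolnerCondition μ)
    {H : Type u} [NormedAddCommGroup H] [InnerProductSpace ℂ H] [CompleteSpace H]
    [SeparableSpace H] (M : VonNeumannAlgebra H) (hM : IsII1Factor M)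
    (α : G → (H →L[ℂ] H) → (H →L[ℂ] H)) (hα : IsAction M α)
    (hout : (ErgCP.IsStrictlyOuter μ M α ∧ (CentralSequencesCommute M ∨
        ∀ g k : G, HasTwistedCentral M (α g) → HasTwistedCentral M (α k) → g * k = k * g)) ∨
      (IsPointwiseOuter M α ∧ HasSpectralGap M)) :
    ∃ v : G → (H →L[ℂ] H), IsCocycle M α v ∧ PerturbationIsErgodic M α v := by
  rcases hout with ⟨h1, h2⟩ | ⟨h1, h2⟩
  · exact nonMcDuff_theorem μ hM hα hG ((ErgCP.isStrictlyOuter_iff μ M α).1 h1) h2
  · exact gap_theorem μ hM h2 hα hG h1

end Pool.Agent.Results.MP_418a80_an.NonMcDuffFactors
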