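import Pool.Agent.Lib_MP_418a80_t5.T5Class
import Pool.Agent.Lib_MP_418a80_ab.Stmt

/-!
# Ergodic cocycle perturbations for groups with compact-by-solvable identity component

Let `G` be a second countable noncompact locally compact amenable group, `α` a strictly outer
action of `G` on a II₁ factor `M` with separable predual and `N` a closed normal subgroup of `G`
which contains all `g` for which `α g` has a nontrivial twisted central sequence (`N = G` is
allowed). If `N` is compact or belongs to the class `CoSolvClass` then `α` admits an ergodic cocycle
perturbation. The class contains the noncompact groups with an open subgroup `L` and a compact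
normal subgroup `B` of `L` such that `L / B` is a connected solvable Lie group, i.e. the groups whose
identity component is an extension of a connected solvable Lie group by a compact group, and the
groups contracting to a closed subgroup of the class.
-/

set_option autoImplicit false

open MeasureTheory TopologicalSpace

namespace Pool.Agent.Results.MP_418a80_an.SolvableComponent

open Pool.Agent.AbCoc

universe u v

theorem result {G : Type v} [Group G] [TopologicalSpace G] [IsTopologicalGroup G]
    [SecondCountableTopology G] [LocallyCompactSpace G] [T2Space G] [NoncompactSpace G]
    [MeasurableSpace G] [BorelSpace G] (μ : Measure G) [μ.IsHaarMeasure]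
    (hG : ErgLC.FolnerCondition μ)
    {H : Type u} [NormedAddCommGroup H] [InnerProductSpace ℂ H] [CompleteSpace H]
    [SeparableSpace H] (M : VonNeumannAlgebra H) (hM : IsII1Factor M)
    (α : G → (H →L[ℂ] H) → (H →L[ℂ] H)) (hα : IsAction M α)
    (hout : ErgCP.IsStrictlyOuter μ M α)
    (N : Subgroup G) [N.Normal] (hN : IsClosed (N : Set G))
    (htw : ∀ g : G, HasTwistedCentral M (α g) → g ∈ N)
    (hcl : NoncompactSpace N → CoSolvClass N) :
    ∃ v : G → (H →L[ℂ] H), IsCocycle M α v ∧ PerturbationIsErgodic M α v := by
  have : LocallyCompactSpace N := hN.isClosedEmbedding_subtypeVal.locallyCompactSpace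
  have : SecondCountableTopology N :=
    inferInstanceAs (SecondCountableTopology ((N : Set G) : Set G))
  exact twist_theorem_keyAll μ hM hα hG ((ErgCP.isStrictlyOuter_iff μ M α).1 hout) N hN htw
    fun hc => (hcl hc).keyAll

end Pool.Agent.Results.MP_418a80_an.SolvableComponent
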